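import Pool.Agent.Y773.HG.FeK
import Pool.Agent.K1H76.RG.Stm2

/-! # The theta functions of the ideal classes (A1a of the project RG)

`t_THETA : S_THETA`.
-/

set_option autoImplicit false
set_option linter.unusedSectionVars false

open NumberField Complex Filter Topology MeasureTheory Set
open NumberField.Units NumberField.Units.dirichletUnitTheorem

namespace Pool.Agent.K1H38.RG

open Pool.Agent.Y773.G
open Pool.Agent.Y773 (LI Reps rp rp_ne_bot reps_rp mm mm_pos mm_mem Dd Dd_pos Dd_mem qt rz FT ee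
  ee_add ee_eq_one_iff ee_sub_eq trace_dvd SQ PerI SQ_mono SQ_translate SQ_const_mul SQ_congr
  FT_eq_SQ absNorm_span_nat mk_out span_m_ne_bot g0 G0 cube el)
open Pool.Agent.K1H76.RG

variable {K : Type} [Field K] [NumberField K]

open Classical in
/-- the trivial character of the ideals -/
noncomputable def tr (K : Type) [Field K] [NumberField K] : Ideal (𝓞 K) →*₀ ℂ where
  toFun 𝔞 := if 𝔞 = ⊥ then 0 else 1
  map_zero' := by simp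
  map_one' := by
    rw [Ideal.one_eq_top, if_neg]
    exact top_ne_bot
  map_mul' 𝔞 𝔟 := by
    by_cases h1 : 𝔞 = ⊥
    · simp [h1]
    · by_cases h2 : 𝔟 = ⊥
      · simp [h2]
      · have h3 : 𝔞 * 𝔟 ≠ ⊥ := by
          rw [Ne, Ideal.mul_eq_bot]
          tauto
        simp [h1, h2, h3]

lemma tr_apply {𝔞 : Ideal (𝓞 K)} (h : 𝔞 ≠ ⊥) : tr K 𝔞 = 1 := by
  classical
  show (if 𝔞 = ⊥ then (0 : ℂ) else 1) = 1
  rw [if_neg h]

lemma tr_bot : tr K (⊥ : Ideal (𝓞 K)) = 0 := by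
  rw [← Ideal.zero_eq_bot, map_zero]

lemma tr_norm (𝔞 : Ideal (𝓞 K)) : ‖tr K 𝔞‖ ≤ 1 := by
  by_cases h : 𝔞 = ⊥
  · rw [h, tr_bot, norm_zero]; exact zero_le_one
  · rw [tr_apply h, norm_one]

open Classical in
/-- the indicator function of an ideal -/
noncomputable def ind (𝔟 : Ideal (𝓞 K)) (x : 𝓞 K) : ℂ := if x ∈ 𝔟 then 1 else 0

lemma ind_mem {𝔟 : Ideal (𝓞 K)} {x : 𝓞 K} (h : x ∈ 𝔟) : ind 𝔟 x = 1 := if_pos h

lemma ind_not {𝔟 : Ideal (𝓞 K)} {x : 𝓞 K} (h : x ∉ 𝔟) : ind 𝔟 x = 0 := if_neg h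

lemma norm_ind (𝔟 : Ideal (𝓞 K)) (x : 𝓞 K) : ‖ind 𝔟 x‖ ≤ 1 := by
  by_cases h : x ∈ 𝔟
  · rw [ind_mem h, norm_one]
  · rw [ind_not h, norm_zero]; exact zero_le_one

lemma ind_add (𝔟 : Ideal (𝓞 K)) (x : 𝓞 K) {z : 𝓞 K} (hz : z ∈ 𝔟) : ind 𝔟 (x + z) = ind 𝔟 x := by
  by_cases h : x ∈ 𝔟
  · rw [ind_mem h, ind_mem (𝔟.add_mem h hz)]
  · rw [ind_not h, ind_not]
    intro h1
    apply h
    have := 𝔟.sub_mem h1 hz
    rwa [add_sub_cancel_right] at this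

lemma sg_zero (x : K) : sg (fun _ : InfinitePlace K => 0) x = 1 := by
  unfold sg
  simp

lemma eqv_ind (𝔟 : Ideal (𝓞 K)) : Eqv (fun _ : InfinitePlace K => 0) (ind 𝔟) := by
  intro u x
  rw [sg_zero, one_mul]
  by_cases h : x ∈ 𝔟
  · rw [ind_mem h, ind_mem (𝔟.mul_mem_left _ h)]
  · rw [ind_not h, ind_not]
    intro h1
    apply h
    have := 𝔟.mul_mem_left ((u⁻¹ : (𝓞 K)ˣ) : 𝓞 K) h1
    rwa [← mul_assoc, Units.inv_mul, one_mul] at this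

lemma Ps_tr {𝔟 : Ideal (𝓞 K)} (h𝔟 : 𝔟 ≠ ⊥) :
    Ps (tr K) (fun _ : InfinitePlace K => 0) 𝔟 = rz (ind 𝔟) := by
  funext x
  unfold rz
  by_cases hx : x ∈ 𝔟
  · obtain ⟨𝔞, h𝔞⟩ := mem_iff_exists_mul.mp hx
    rw [Ps_of_eq h𝔟 h𝔞, sg_zero, mul_one, ind_mem hx]
    by_cases h0 : x = 0
    · rw [if_pos h0]
      rw [h0, Ideal.span_singleton_eq_bot.mpr rfl, Ideal.mul_eq_bot] at h𝔞
      rcases h𝔞 with h | h
      · rw [h, tr_bot]
      · exact absurd h h𝔟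
    · rw [if_neg h0, tr_apply]
      rintro rfl
      rw [Ideal.bot_mul] at h𝔞
      exact h0 (Ideal.span_singleton_eq_bot.mp h𝔞.symm)
  · rw [Ps_of_notMem hx, ind_not hx]
    simp

lemma perI_ind (𝔟 : Ideal (𝓞 K)) : PerI 𝔟 (ind 𝔟) := by
  intro x y h
  have : x = y + (x - y) := by ring
  rw [this, ind_add _ _ h]

lemma SQ_ind (𝔟 : Ideal (𝓞 K)) : SQ 𝔟 (ind 𝔟) = 1 := by
  unfold SQ
  have hiff : ∀ r : 𝓞 K ⧸ 𝔟, Quotient.out r ∈ 𝔟 ↔ r = 0 := by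
    intro r
    rw [← Ideal.Quotient.eq_zero_iff_mem, mk_out]
  rw [finsum_eq_single _ (0 : 𝓞 K ⧸ 𝔟)]
  · exact ind_mem ((hiff 0).mpr rfl)
  · intro r hr
    exact ind_not fun h => hr ((hiff r).mp h)

/-- membership in the dual ideal -/
lemma mem_dual {𝔟 𝔟' : Ideal (𝓞 K)} {k : ℕ} (hk : 0 < k) (h𝔟 : 𝔟 ≠ ⊥)
    (hid : 𝔟' * (𝔟 * differentIdeal ℤ (𝓞 K)) = Ideal.span {(k : 𝓞 K)}) (x : 𝓞 K) :
    x ∈ 𝔟' ↔ ∀ z ∈ 𝔟, (k : ℤ) ∣ Algebra.trace ℤ (𝓞 K) (x * z) := by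
  have h𝔡 : differentIdeal ℤ (𝓞 K) ≠ ⊥ := differentIdeal_ne_bot
  constructor
  · intro hx z hz
    refine trace_dvd fun δ hδ => ?_
    rw [← hid, mul_assoc]
    exact Ideal.mul_mem_mul hx (Ideal.mul_mem_mul hz hδ)
  · intro h
    have h1 : Ideal.span {x} * (𝔟 * differentIdeal ℤ (𝓞 K)) ≤ 𝔟' * (𝔟 * differentIdeal ℤ (𝓞 K)) := by
      rw [Ideal.span_singleton_mul_le_iff]
      intro y hy
      rw [hid]
      refine Submodule.mul_induction_on hy ?_ ?_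
      · intro z hz δ hδ
        rw [← mul_assoc]
        refine trace_dvd_conv hk (fun o => ?_) hδ
        rw [mul_assoc]
        exact h _ (𝔟.mul_mem_right _ hz)
      · intro y z hy hz
        rw [mul_add]
        exact Ideal.add_mem _ hy hz
    rw [← Ideal.dvd_iff_le] at h1
    have h2 : 𝔟 * differentIdeal ℤ (𝓞 K) ≠ 0 := mul_ne_zero h𝔟 h𝔡
    have h3 := (mul_dvd_mul_iff_right h2).mp h1
    rw [Ideal.dvd_iff_le, Ideal.span_singleton_le_iff_mem] at h3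
    exact h3

/-- the finite Fourier transform of the indicator function of an ideal -/
lemma FT_ind {𝔟 𝔟' : Ideal (𝓞 K)} {m D : ℕ} (hm : 0 < m) (hD : 0 < D) (hmb : (m : 𝓞 K) ∈ 𝔟)
    (h𝔟 : 𝔟 ≠ ⊥) (hid : 𝔟' * (𝔟 * differentIdeal ℤ (𝓞 K)) = Ideal.span {((m * D : ℕ) : 𝓞 K)})
    (x : 𝓞 K) : FT D m (ind 𝔟) x =
      ((m : ℂ) ^ (Module.finrank ℚ K) / (Ideal.absNorm 𝔟 : ℂ)) * ind 𝔟' x := by
  have hk : 0 < m * D := Nat.mul_pos hm hD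
  have hm0 : (m : ℤ) ≠ 0 := by exact_mod_cast hm.ne'
  have hmne : Ideal.span {(m : 𝓞 K)} ≠ ⊥ := by
    rw [Ne, Ideal.span_singleton_eq_bot]
    exact_mod_cast hm.ne'
  have hN : (Ideal.absNorm 𝔟 : ℂ) ≠ 0 := by
    exact_mod_cast (fun h1 => h𝔟 (Ideal.absNorm_eq_zero_iff.mp h1))
  have htrm : ∀ w : 𝓞 K, Algebra.trace ℤ (𝓞 K) (x * ((m : 𝓞 K) * w)) =
      m * Algebra.trace ℤ (𝓞 K) (x * w) := by
    intro w
    have : x * ((m : 𝓞 K) * w) = (m : ℤ) • (x * w) := by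
      rw [zsmul_eq_mul]
      push_cast
      ring
    rw [this, map_smul]
    simp
  by_cases hx : x ∈ 𝔟'
  · have h1 := (mem_dual hk h𝔟 hid x).mp hx
    have hcond : ∀ r : 𝓞 K, (D : ℤ) ∣ Algebra.trace ℤ (𝓞 K) (x * r) := by
      intro r
      have h2 := h1 ((m : 𝓞 K) * r) (𝔟.mul_mem_right _ hmb)
      rw [htrm] at h2
      push_cast at h2
      exact (mul_dvd_mul_iff_left hm0).mp h2
    rw [FT_eq_SQ hcond, ind_mem hx, mul_one]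
    have h3 : SQ (Ideal.span {(m : 𝓞 K)}) (fun r => ind 𝔟 r * ee (m * D) (x * r)) =
        SQ (Ideal.span {(m : 𝓞 K)}) (ind 𝔟) := by
      refine SQ_congr fun r => ?_
      by_cases hr : r ∈ 𝔟
      · rw [(ee_eq_one_iff hk _).mpr (h1 r hr), mul_one]
      · rw [ind_not hr, zero_mul]
    rw [h3]
    have hle : Ideal.span {(m : 𝓞 K)} ≤ 𝔟 := by
      rw [Ideal.span_singleton_le_iff_mem]
      exact hmb
    have h4 := SQ_mono hmne hle (perI_ind 𝔟)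
    rw [SQ_ind, mul_one, absNorm_span_nat] at h4
    push_cast at h4
    rw [eq_div_iff hN, mul_comm]
    exact h4
  · rw [ind_not hx, mul_zero]
    by_cases hcond : ∀ r : 𝓞 K, (D : ℤ) ∣ Algebra.trace ℤ (𝓞 K) (x * r)
    swap
    · unfold FT
      rw [if_neg hcond]
    · rw [FT_eq_SQ hcond]
      have h1 : ∃ z ∈ 𝔟, ¬ ((m * D : ℕ) : ℤ) ∣ Algebra.trace ℤ (𝓞 K) (x * z) := by
        by_contra hcon
        push Not at hcon
        exact hx ((mem_dual hk h𝔟 hid x).mpr hcon)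
      obtain ⟨z, hz, hz2⟩ := h1
      have h2 : ee (m * D) (x * z) ≠ 1 := fun h => hz2 ((ee_eq_one_iff hk _).mp h)
      set f : 𝓞 K → ℂ := fun r => ind 𝔟 r * ee (m * D) (x * r) with hf
      have hper : PerI (Ideal.span {(m : 𝓞 K)}) f := by
        intro r r' hrr
        obtain ⟨w, hw⟩ := Ideal.mem_span_singleton'.mp hrr
        have e1 : r = r' + (m : 𝓞 K) * w := by
          rw [mul_comm, hw]
          ring
        show ind 𝔟 r * ee (m * D) (x * r) = ind 𝔟 r' * ee (m * D) (x * r')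
        rw [e1, ind_add _ _ (𝔟.mul_mem_right _ hmb), mul_add, ee_add]
        have e2 : ee (m * D) (x * ((m : 𝓞 K) * w)) = 1 := by
          rw [ee_eq_one_iff hk, htrm]
          push_cast
          exact mul_dvd_mul_left _ (hcond w)
        rw [e2, mul_one]
      have h3 := SQ_translate hper z
      have h4 : (fun r => f (r + z)) = fun r => ee (m * D) (x * z) * f r := by
        funext r
        show ind 𝔟 (r + z) * ee (m * D) (x * (r + z)) =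
          ee (m * D) (x * z) * (ind 𝔟 r * ee (m * D) (x * r))
        rw [ind_add _ _ hz, mul_add, ee_add]
        ring
      rw [h4, SQ_const_mul hmne] at h3
      have h5 : (ee (m * D) (x * z) - 1) * SQ (Ideal.span {(m : 𝓞 K)}) f = 0 := by
        linear_combination h3
      rcases mul_eq_zero.mp h5 with h6 | h6
      · exact absurd (sub_eq_zero.mp h6) h2
      · exact h6

/-! ### the theta functions -/

lemma th_real (𝔟 : Ideal (𝓞 K)) (y : InfinitePlace K → ℝ) : ∃ r : ℝ, 0 ≤ r ∧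
    th (fun _ => 0) (rz (ind 𝔟)) y = (r : ℂ) := by
  classical
  refine ⟨∑' x : 𝓞 K, (rz (ind 𝔟) x).re * GM (fun _ => 0) (fun w => Real.exp (y w / 2)) (x : K),
    tsum_nonneg fun x => mul_nonneg ?_ ?_, ?_⟩
  · unfold rz ind
    split_ifs <;> simp
  · unfold GM G0 g0
    exact Finset.prod_nonneg fun φ _ => by
      unfold eM
      rw [pow_zero, one_mul]
      exact (Real.exp_pos _).le
  · unfold th
    rw [Complex.ofReal_tsum]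
    refine tsum_congr fun x => ?_
    rw [Complex.ofReal_mul]
    congr 1
    unfold rz ind
    split_ifs <;> simp

lemma hf_real (𝔟 : Ideal (𝓞 K)) (t : ℝ) : ∃ r : ℝ, 0 ≤ r ∧
    hf (fun _ => 0) (rz (ind 𝔟)) t = (r : ℂ) := by
  choose f hf0 hf1 using th_real (K := K) 𝔟
  refine ⟨∫ θ in cube K, f (el K ((2 / Module.finrank ℚ K) * Real.log t, θ)),
    integral_nonneg fun θ => hf0 _, ?_⟩
  unfold hf
  simp_rw [hf1]
  exact integral_ofReal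

/-- the theta function of the class of `𝔟`, without the zero term -/
noncomputable def gb (𝔟 : Ideal (𝓞 K)) (u : ℝ) : ℝ :=
  (hf (fun _ => 0) (rz (ind 𝔟)) ((Ideal.absNorm 𝔟 : ℝ)⁻¹ * u)).re

lemma gb_nonneg (𝔟 : Ideal (𝓞 K)) (u : ℝ) : 0 ≤ gb 𝔟 u := by
  obtain ⟨r, h0, h1⟩ := hf_real (K := K) 𝔟 ((Ideal.absNorm 𝔟 : ℝ)⁻¹ * u)
  unfold gb
  rw [h1, Complex.ofReal_re]
  exact h0

lemma gb_cast (𝔟 : Ideal (𝓞 K)) (u : ℝ) : ((gb 𝔟 u : ℝ) : ℂ) =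
    hf (fun _ => 0) (rz (ind 𝔟)) ((Ideal.absNorm 𝔟 : ℝ)⁻¹ * u) := by
  obtain ⟨r, h0, h1⟩ := hf_real (K := K) 𝔟 ((Ideal.absNorm 𝔟 : ℝ)⁻¹ * u)
  unfold gb
  rw [h1, Complex.ofReal_re]

lemma hf_ind (𝔟 : Ideal (𝓞 K)) (t : ℝ) : hf (fun _ => 0) (ind 𝔟) t =
    1 + hf (fun _ => 0) (rz (ind 𝔟)) t := by
  rw [hf_rz (fun _ => Nat.zero_le _) (norm_ind 𝔟), G00_zero, ind_mem 𝔟.zero_mem, mul_one]

lemma gb_fe0 (K : Type) [Field K] [NumberField K] : ∃ V : ℝ, 0 < V ∧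
    ∀ (𝔟 𝔟' : Ideal (𝓞 K)) (m D : ℕ), 0 < m → 0 < D → (m : 𝓞 K) ∈ 𝔟 → 𝔟 ≠ ⊥ →
      (D : 𝓞 K) ∈ differentIdeal ℤ (𝓞 K) →
      𝔟' * (𝔟 * differentIdeal ℤ (𝓞 K)) = Ideal.span {((m * D : ℕ) : 𝓞 K)} →
      ∀ u : ℝ, 0 < u → 1 + gb 𝔟 (1 / u) =
        V⁻¹ * u * (1 + gb 𝔟' (u / (Ideal.absNorm (differentIdeal ℤ (𝓞 K)) : ℝ))) := by
  obtain ⟨V, hV0, hV⟩ := hf_fe K
  refine ⟨V, hV0, fun 𝔟 𝔟' m D hm hD hmb h𝔟 hDD hid u hu => ?_⟩
  have h𝔡 : differentIdeal ℤ (𝓞 K) ≠ ⊥ := differentIdeal_ne_bot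
  have h𝔟' : 𝔟' ≠ ⊥ := by
    rintro rfl
    rw [Ideal.bot_mul] at hid
    have h1 : ((m * D : ℕ) : 𝓞 K) = 0 := Ideal.span_singleton_eq_bot.mp hid.symm
    exact (Nat.mul_pos hm hD).ne' (by exact_mod_cast h1)
  have hNb : (0 : ℝ) < (Ideal.absNorm 𝔟 : ℝ) := by
    exact_mod_cast Nat.pos_of_ne_zero fun h => h𝔟 (Ideal.absNorm_eq_zero_iff.mp h)
  have hNb' : (0 : ℝ) < (Ideal.absNorm 𝔟' : ℝ) := by
    exact_mod_cast Nat.pos_of_ne_zero fun h => h𝔟' (Ideal.absNorm_eq_zero_iff.mp h)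
  have hNd : (0 : ℝ) < (Ideal.absNorm (differentIdeal ℤ (𝓞 K)) : ℝ) := by
    exact_mod_cast Nat.pos_of_ne_zero fun h => h𝔡 (Ideal.absNorm_eq_zero_iff.mp h)
  have hper : ∀ x z : 𝓞 K, ind 𝔟 (x + m * z) = ind 𝔟 x := fun x z =>
    ind_add _ _ (𝔟.mul_mem_right _ hmb)
  have h1 := hV (fun _ => 0) (fun _ => Nat.zero_le _) (fun _ _ => rfl) (ind 𝔟) 1 (norm_ind 𝔟)
    (eqv_ind 𝔟) m D hm hD hDD hper (u * Ideal.absNorm 𝔟) (mul_pos hu hNb)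
  have hFT : FT D m (ind 𝔟) = fun x => ((m : ℂ) ^ (Module.finrank ℚ K) / (Ideal.absNorm 𝔟 : ℂ)) *
      ind 𝔟' x := funext fun x => FT_ind hm hD hmb h𝔟 hid x
  have hcm : ∀ (a : ℂ) (Ψ : 𝓞 K → ℂ) (t : ℝ), hf (fun _ => 0) (fun x => a * Ψ x) t =
      a * hf (fun _ => 0) Ψ t := by
    intro a Ψ t
    unfold hf
    rw [← integral_const_mul]
    congr 1
    funext θ
    unfold th
    rw [← tsum_mul_left]
    exact tsum_congr fun x => by ring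
  rw [hFT, hcm, hf_ind, hf_ind] at h1
  have e1 : (1 : ℝ) / (u * Ideal.absNorm 𝔟) = (Ideal.absNorm 𝔟 : ℝ)⁻¹ * (1 / u) := by
    field_simp
  have e2 : u * (Ideal.absNorm 𝔟 : ℝ) / ((m * D : ℕ) : ℝ) ^ (Module.finrank ℚ K) =
      (Ideal.absNorm 𝔟' : ℝ)⁻¹ * (u / (Ideal.absNorm (differentIdeal ℤ (𝓞 K)) : ℝ)) := by
    have h3 := congrArg Ideal.absNorm hid
    rw [map_mul, map_mul, absNorm_span_nat] at h3
    have h4 : ((m * D : ℕ) : ℝ) ^ (Module.finrank ℚ K) = (Ideal.absNorm 𝔟' : ℝ) *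
        ((Ideal.absNorm 𝔟 : ℝ) * (Ideal.absNorm (differentIdeal ℤ (𝓞 K)) : ℝ)) := by
      exact_mod_cast h3.symm
    rw [h4]
    field_simp
  have e3 : ∑ φ : K →+* ℂ, eM (fun _ : InfinitePlace K => 0) φ = 0 := by
    refine Finset.sum_eq_zero fun φ _ => rfl
  rw [e1, e2, e3, pow_zero, mul_one, ← gb_cast, ← gb_cast] at h1
  have hmc : ((m : ℂ) ^ (Module.finrank ℚ K)) ≠ 0 := pow_ne_zero _ (by exact_mod_cast hm.ne')
  have hNc : (Ideal.absNorm 𝔟 : ℂ) ≠ 0 := by exact_mod_cast hNb.ne'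
  have h2 : (((1 + gb 𝔟 (1 / u) : ℝ)) : ℂ) = ((V⁻¹ * u * (1 + gb 𝔟' (u /
      (Ideal.absNorm (differentIdeal ℤ (𝓞 K)) : ℝ))) : ℝ) : ℂ) := by
    push_cast
    push_cast at h1
    rw [h1]
    field_simp
  exact_mod_cast h2

/-- the constant of the functional equation -/
lemma V_sq {V : ℝ} (hV0 : 0 < V) (hV : ∀ (𝔟 𝔟' : Ideal (𝓞 K)) (m D : ℕ), 0 < m → 0 < D →
      (m : 𝓞 K) ∈ 𝔟 → 𝔟 ≠ ⊥ → (D : 𝓞 K) ∈ differentIdeal ℤ (𝓞 K) →
      𝔟' * (𝔟 * differentIdeal ℤ (𝓞 K)) = Ideal.span {((m * D : ℕ) : 𝓞 K)} →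
      ∀ u : ℝ, 0 < u → 1 + gb 𝔟 (1 / u) =
        V⁻¹ * u * (1 + gb 𝔟' (u / (Ideal.absNorm (differentIdeal ℤ (𝓞 K)) : ℝ)))) :
    V = Real.sqrt (Ideal.absNorm (differentIdeal ℤ (𝓞 K)) : ℝ) := by
  have h𝔡 : differentIdeal ℤ (𝓞 K) ≠ ⊥ := differentIdeal_ne_bot
  have hNd : (0 : ℝ) < (Ideal.absNorm (differentIdeal ℤ (𝓞 K)) : ℝ) := by
    exact_mod_cast Nat.pos_of_ne_zero fun h => h𝔡 (Ideal.absNorm_eq_zero_iff.mp h)
  set N : ℝ := (Ideal.absNorm (differentIdeal ℤ (𝓞 K)) : ℝ) with hN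
  have key : ∀ 𝔟 : Ideal (𝓞 K), 𝔟 ≠ ⊥ → ∃ 𝔟' : Ideal (𝓞 K), 𝔟' ≠ ⊥ ∧
      ∀ u : ℝ, 0 < u → 1 + gb 𝔟 (1 / u) = V⁻¹ * u * (1 + gb 𝔟' (u / N)) := by
    intro 𝔟 h𝔟
    have hm : 0 < Ideal.absNorm 𝔟 := Nat.pos_of_ne_zero fun h => h𝔟 (Ideal.absNorm_eq_zero_iff.mp h)
    have hmb : ((Ideal.absNorm 𝔟 : ℕ) : 𝓞 K) ∈ 𝔟 := Ideal.absNorm_mem _
    have h1 : ((Ideal.absNorm 𝔟 * Dd K : ℕ) : 𝓞 K) ∈ 𝔟 * differentIdeal ℤ (𝓞 K) := by
      push_cast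
      exact Ideal.mul_mem_mul hmb Dd_mem
    obtain ⟨𝔟', h⟩ := mem_iff_exists_mul.mp h1
    refine ⟨𝔟', ?_, hV 𝔟 𝔟' _ _ hm Dd_pos hmb h𝔟 Dd_mem h⟩
    rintro rfl
    rw [Ideal.bot_mul] at h
    have h1 : ((Ideal.absNorm 𝔟 * Dd K : ℕ) : 𝓞 K) = 0 := Ideal.span_singleton_eq_bot.mp h.symm
    exact (Nat.mul_pos hm (Dd_pos (K := K))).ne' (by exact_mod_cast h1)
  obtain ⟨𝔟, h𝔟, h1⟩ := key ⊤ top_ne_bot
  obtain ⟨𝔟', h𝔟', h2⟩ := key 𝔟 h𝔟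
  have h3 : ∀ u : ℝ, 0 < u → 1 + gb (⊤ : Ideal (𝓞 K)) u = V⁻¹ ^ 2 * N * (1 + gb 𝔟' u) := by
    intro u hu
    have h4 := h1 (1 / u) (by positivity)
    have h5 := h2 (u * N) (by positivity)
    have e1 : 1 / (1 / u) = u := by field_simp
    have e2 : 1 / u / N = 1 / (u * N) := by field_simp
    have e3 : u * N / N = u := by field_simp
    rw [e1, e2] at h4
    rw [e3] at h5
    rw [h4, h5]
    field_simp
  have hdec : ∀ 𝔠 : Ideal (𝓞 K), 𝔠 ≠ ⊥ → Tendsto (fun u => gb 𝔠 u) atTop (𝓝 0) := by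
    intro 𝔠 h𝔠
    have hNc : (0 : ℝ) < (Ideal.absNorm 𝔠 : ℝ) := by
      exact_mod_cast Nat.pos_of_ne_zero fun h => h𝔠 (Ideal.absNorm_eq_zero_iff.mp h)
    have h5 := hf_decay' (rz_nice (K := K) (e := fun _ => 0) (fun _ => Nat.zero_le _) (fun _ _ => rfl)
      (norm_ind 𝔠) (eqv_ind 𝔠)) (inv_pos.mpr hNc) (-1)
    have h6 : Tendsto (fun t : ℝ => t ^ (-1 : ℝ)) atTop (𝓝 0) := tendsto_rpow_neg_atTop one_pos
    have h7 := (h5.trans_tendsto h6)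
    have h8 := (Complex.continuous_re.tendsto 0).comp h7
    simpa [gb, Function.comp_def] using h8
  have h9 : Tendsto (fun u : ℝ => 1 + gb (⊤ : Ideal (𝓞 K)) u) atTop (𝓝 (1 + 0)) :=
    (hdec ⊤ top_ne_bot).const_add 1
  have h10 : Tendsto (fun u : ℝ => V⁻¹ ^ 2 * N * (1 + gb 𝔟' u)) atTop (𝓝 (V⁻¹ ^ 2 * N * (1 + 0))) :=
    ((hdec 𝔟' h𝔟').const_add 1).const_mul _
  have h11 : Tendsto (fun u : ℝ => 1 + gb (⊤ : Ideal (𝓞 K)) u) atTop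
      (𝓝 (V⁻¹ ^ 2 * N * (1 + 0))) := by
    refine h10.congr' ?_
    filter_upwards [eventually_gt_atTop 0] with u hu
    exact (h3 u hu).symm
  have h12 := tendsto_nhds_unique h9 h11
  rw [add_zero, mul_one] at h12
  have h13 : V ^ 2 = N := by
    field_simp at h12
    linarith
  rw [← h13, Real.sqrt_sq hV0.le]

/-! ### the Mellin transform -/

lemma LI_tr {s : ℝ} : LI (tr K) (s : ℂ) = ((ZK K s : ℝ) : ℂ) := by
  have h2 : ∑' I : ({𝔞 : Ideal (𝓞 K) | 𝔞 ≠ ⊥} : Set (Ideal (𝓞 K))),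
      tr K I.1 * ((Ideal.absNorm I.1 : ℕ) : ℂ) ^ (-(s : ℂ)) = LI (tr K) s := by
    refine tsum_subtype_eq_of_support_subset (f := fun 𝔞 : Ideal (𝓞 K) =>
      tr K 𝔞 * ((Ideal.absNorm 𝔞 : ℕ) : ℂ) ^ (-(s : ℂ))) fun 𝔞 h𝔞 => ?_
    intro h0
    apply h𝔞
    show tr K 𝔞 * _ = 0
    rw [h0, tr_bot, zero_mul]
  rw [← h2]
  unfold ZK
  rw [Complex.ofReal_tsum]
  refine tsum_congr fun I => ?_
  rw [tr_apply I.2, one_mul, Complex.ofReal_cpow (Nat.cast_nonneg _)]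
  push_cast
  rfl

lemma gam_eq (K : Type) [Field K] [NumberField K] : ∃ a b : ℕ, a + b = Module.finrank ℚ K ∧
    ∀ s : ℝ, ∏ φ : K →+* ℂ, Complex.Gammaℝ ((s : ℂ) + ex (fun _ => 0) φ) =
      ((gR s ^ a * gR (s + 1) ^ b : ℝ) : ℂ) := by
  classical
  refine ⟨(Finset.univ.filter fun φ : K →+* ℂ => ex (fun _ => 0) φ = 0).card,
    (Finset.univ.filter fun φ : K →+* ℂ => ¬ ex (fun _ => 0) φ = 0).card, ?_, fun s => ?_⟩
  · rw [Finset.card_filter_add_card_filter_not, Finset.card_univ]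
    exact Embeddings.card K ℂ
  · have hg : ∀ t : ℝ, Complex.Gammaℝ (t : ℂ) = ((gR t : ℝ) : ℂ) := by
      intro t
      unfold gR
      rw [Complex.Gammaℝ_def, Complex.ofReal_mul, Complex.ofReal_cpow Real.pi_pos.le,
        ← Complex.Gamma_ofReal]
      push_cast
      rfl
    have h1 : ∀ φ : K →+* ℂ, Complex.Gammaℝ ((s : ℂ) + ex (fun _ => 0) φ) =
        if ex (fun _ => 0) φ = 0 then ((gR s : ℝ) : ℂ) else ((gR (s + 1) : ℝ) : ℂ) := by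
      intro φ
      split_ifs with h
      · rw [h, Nat.cast_zero, add_zero, hg]
      · have h2 : ex (fun _ => 0) φ = 1 := by
          have := ex_le (K := K) (e := fun _ => 0) (fun _ => Nat.zero_le _) φ
          omega
        rw [h2, ← hg]
        push_cast
        rfl
    simp_rw [h1]
    rw [Finset.prod_ite, Finset.prod_const, Finset.prod_const]
    push_cast
    rfl

lemma nice_ind (𝔟 : Ideal (𝓞 K)) : Nice (fun _ => 0) (rz (ind 𝔟)) :=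
  rz_nice (K := K) (e := fun _ => 0) (fun _ => Nat.zero_le _) (fun _ _ => rfl) (norm_ind 𝔟)
    (eqv_ind 𝔟)

lemma mellin_gb (K : Type) [Field K] [NumberField K] : ∃ C : ℝ, 0 < C ∧ ∃ a b : ℕ,
    a + b = Module.finrank ℚ K ∧ ∀ 𝔟 : ClassGroup (𝓞 K) → Ideal (𝓞 K), Reps 𝔟 →
      ∀ s : ℝ, 1 < s → IntegrableOn (fun u => (∑ c, gb (𝔟 c) u) * u ^ (s - 1)) (Ioi 0) ∧
        ∫ u in Ioi 0, (∑ c, gb (𝔟 c) u) * u ^ (s - 1) =
          C * (gR s ^ a * gR (s + 1) ^ b * ZK K s) := by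
  obtain ⟨C, hC, hmel⟩ := mellin_Ftot K
  obtain ⟨a, b, hab, hgam⟩ := gam_eq K
  refine ⟨C, hC, a, b, hab, fun 𝔟 h𝔟 s hs => ?_⟩
  have hPs : ∀ c, Ps (tr K) (fun _ : InfinitePlace K => 0) (𝔟 c) = rz (ind (𝔟 c)) :=
    fun c => Ps_tr (h𝔟.ne_bot c)
  have hs' : 1 < ((s : ℝ) : ℂ).re := by rw [Complex.ofReal_re]; exact hs
  obtain ⟨h1, h2⟩ := hmel 𝔟 h𝔟 (fun _ => 0) (tr K) tr_norm
    (fun c => by rw [hPs c]; exact nice_ind _) s hs'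
  have hF : ∀ t, Ftot (tr K) (fun _ => 0) 𝔟 t = ((∑ c, gb (𝔟 c) t : ℝ) : ℂ) := by
    intro t
    unfold Ftot
    rw [Complex.ofReal_sum]
    refine Finset.sum_congr rfl fun c _ => ?_
    rw [hPs c, gb_cast]
  have h3 : ∀ t ∈ Ioi (0 : ℝ), (t : ℂ) ^ ((s : ℂ) - 1) • Ftot (tr K) (fun _ => 0) 𝔟 t =
      (((∑ c, gb (𝔟 c) t) * t ^ (s - 1) : ℝ) : ℂ) := by
    intro t ht
    rw [hF, smul_eq_mul, Complex.ofReal_mul, Complex.ofReal_cpow (le_of_lt ht)]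
    push_cast
    ring
  have h4 : IntegrableOn (fun t => (((∑ c, gb (𝔟 c) t) * t ^ (s - 1) : ℝ) : ℂ)) (Ioi 0) :=
    IntegrableOn.congr_fun h1 h3 measurableSet_Ioi
  refine ⟨?_, ?_⟩
  · have := h4.re
    simp only [RCLike.re_to_complex, Complex.ofReal_re] at this
    exact this
  · unfold mellin at h2
    rw [setIntegral_congr_fun measurableSet_Ioi h3, integral_complex_ofReal, hgam, LI_tr] at h2
    exact_mod_cast h2

/-- **A1a** -/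
theorem t_THETA : S_THETA := by
  intro K _ _
  obtain ⟨C, hC, a, b, hab, hmel⟩ := mellin_gb K
  obtain ⟨V, hV0, hV⟩ := gb_fe0 K
  have hVsq := V_sq hV0 hV
  have hdisc : (Ideal.absNorm (differentIdeal ℤ (𝓞 K)) : ℝ) = |(discr K : ℝ)| := by
    rw [NumberField.absNorm_differentIdeal (K := K) (𝒪 := 𝓞 K), Nat.cast_natAbs]
    push_cast
    rfl
  have hm0 : 0 < mm (rp K) ⊤ := mm_pos rp_ne_bot top_ne_bot
  have hD0 : 0 < Dd K := Dd_pos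
  choose 𝔟' h𝔟' using fun c => exists_compl (𝔣 := (⊤ : Ideal (𝓞 K))) (𝔟 := rp K c)
    (m := mm (rp K) ⊤) (D := Dd K) (mm_mem _ _ c) Dd_mem
  have hR' : Reps 𝔟' := reps_compl (top_ne_bot) reps_rp (Nat.mul_pos hm0 hD0) h𝔟'
  refine ⟨C, Fintype.card (ClassGroup (𝓞 K)), a, b, fun u => ∑ c, gb (rp K c) u,
    fun u => ∑ c, gb (𝔟' c) u, hC, Fintype.card_pos, hab,
    fun u _ => ⟨Finset.sum_nonneg fun c _ => gb_nonneg _ _, Finset.sum_nonneg fun c _ => gb_nonneg _ _⟩,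
    fun u hu => ?_, hmel _ reps_rp, hmel _ hR'⟩
  have h1 : ∀ c, 1 + gb (rp K c) (1 / u) = u / Real.sqrt |(discr K : ℝ)| *
      (1 + gb (𝔟' c) (u / |(discr K : ℝ)|)) := by
    intro c
    have h2 := hV (rp K c) (𝔟' c) (mm (rp K) ⊤) (Dd K) hm0 hD0
      (by simpa using mm_mem (rp K) ⊤ c) (rp_ne_bot c) Dd_mem
      (by simpa using h𝔟' c) u hu
    rw [h2, hVsq, hdisc]
    ring
  have h3 := Finset.sum_congr (s₁ := (Finset.univ : Finset (ClassGroup (𝓞 K)))) rfl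
    fun c _ => h1 c
  rw [Finset.sum_add_distrib, ← Finset.mul_sum, Finset.sum_add_distrib] at h3
  simpa using h3

end Pool.Agent.K1H38.RG
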